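import Mathlib
import Pool.Agent.H96S.NS.Hil
import Pool.Agent.H96S.NS.Sub

/-!
# Embedding problems and normal subgroups

Let `L/K` be a finite Galois extension and `α : E → Gal(L/K)` a finite embedding problem.

* `ProperSolution`: a finite Galois extension `F ⊇ L` of `K` with `Gal(F/K) ≃ E` over `Gal(L/K)`.
* `NormalLift`: only a *normal subgroup* `N` of `Gal(F/K)` is isomorphic to `E` over `Gal(L/K)`; in
  other words `F` is Galois over `K` and is a proper solution over a Galois extension `K'` of `K`
  (the fixed field of `N`), linearly disjoint from `L`.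
* `NormalKernel`: a normal subgroup `N` of `Gal(F/K)`, trivial on `L`, is isomorphic to the kernel
  of `α`, and every element of `Gal(F/K)` acts on `N` and on `L` as some element of `E`.
* `SubnormalKernel`: the same with `N` normal in a normal subgroup `M` of `Gal(F/K)` which is
  trivial on `L`; the elements of `Gal(F/K)` which normalise `N` act on `N` and `L` exactly as the
  elements of `E`.

The theorem: the question for proper solutions is equivalent to the question for normal lifts, and
to the one for normal kernels; and for subnormal kernels the answer is positive.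
-/

set_option autoImplicit false

namespace Pool.Agent.Results.MP_e9d732_al.NormalSubgroups

/-- `K` is Hilbertian (in the form used in frozen statement S03429). -/
def Hilbertian (K : Type) [Field K] : Prop :=
  ∀ (f : Polynomial (Polynomial K)), f.Monic → Irreducible f →
    (f.map (algebraMap (Polynomial K) (FractionRing (Polynomial K)))).Separable →
    ∀ g : Polynomial K, g ≠ 0 →
      ∃ a : K, g.eval a ≠ 0 ∧ Irreducible (f.map (Polynomial.evalRingHom a))

/-- A proper solution of the embedding problem `α : E → Gal(L/K)`. -/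
def ProperSolution (K L E : Type) [Field K] [Field L] [Algebra K L] [Group E]
    (α : E →* (L ≃ₐ[K] L)) : Prop :=
  ∃ (F : Type) (_ : Field F) (_ : Algebra K F) (_ : Algebra L F) (_ : IsScalarTower K L F)
    (_ : FiniteDimensional K F) (_ : IsGalois K F) (γ : (F ≃ₐ[K] F) ≃* E),
    ∀ (σ : F ≃ₐ[K] F) (x : L), σ (algebraMap L F x) = algebraMap L F (α (γ σ) x)

/-- `E` is isomorphic over `Gal(L/K)` to a normal subgroup of `Gal(F/K)`. -/
def NormalLift (K L E : Type) [Field K] [Field L] [Algebra K L] [Group E]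
    (α : E →* (L ≃ₐ[K] L)) : Prop :=
  ∃ (F : Type) (_ : Field F) (_ : Algebra K F) (_ : Algebra L F) (_ : IsScalarTower K L F)
    (_ : FiniteDimensional K F) (_ : IsGalois K F) (ι : E →* (F ≃ₐ[K] F)),
    Function.Injective ι ∧ ι.range.Normal ∧
    ∀ (g : E) (x : L), ι g (algebraMap L F x) = algebraMap L F (α g x)

/-- `σ` acts on `L`, and by conjugation on the copy of the kernel of `α`, as `g` does. -/
def ActsAs {K L E F : Type} [Field K] [Field L] [Algebra K L] [Group E] [Field F]
    [Algebra K F] [Algebra L F] (α : E →* (L ≃ₐ[K] L)) (ι : α.ker →* (F ≃ₐ[K] F))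
    (σ : F ≃ₐ[K] F) (g : E) : Prop :=
  (∀ x : L, σ (algebraMap L F x) = algebraMap L F (α g x)) ∧
    ∀ c d : α.ker, g * c * g⁻¹ = (d : E) → σ * ι c * σ⁻¹ = ι d

/-- Conjugation by `σ` maps `N` into itself. -/
def Normalises {X : Type} [Group X] (σ : X) (N : Subgroup X) : Prop :=
  ∀ τ ∈ N, σ * τ * σ⁻¹ ∈ N

/-- The elements of `M` fix `L`. -/
def TrivialOn (L : Type) {K F : Type} [Field K] [Field L] [Field F] [Algebra K F] [Algebra L F]
    (M : Subgroup (F ≃ₐ[K] F)) : Prop :=
  ∀ σ ∈ M, ∀ x : L, σ (algebraMap L F x) = algebraMap L F x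

/-- The kernel of `α` is isomorphic to a normal subgroup of `Gal(F/K)`, trivial on `L`, with the
right action. -/
def NormalKernel (K L E : Type) [Field K] [Field L] [Algebra K L] [Group E]
    (α : E →* (L ≃ₐ[K] L)) : Prop :=
  ∃ (F : Type) (_ : Field F) (_ : Algebra K F) (_ : Algebra L F) (_ : IsScalarTower K L F)
    (_ : FiniteDimensional K F) (_ : IsGalois K F) (ι : α.ker →* (F ≃ₐ[K] F)),
    Function.Injective ι ∧ ι.range.Normal ∧ TrivialOn L ι.range ∧
    ∀ σ, ∃ g : E, ActsAs α ι σ g

/-- The kernel of `α` is isomorphic to a normal subgroup of a normal subgroup `M` of `Gal(F/K)`, with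
`M` trivial on `L`, and the elements which normalise it act on it and on `L` exactly as the elements
of `E`. -/
def SubnormalKernel (K L E : Type) [Field K] [Field L] [Algebra K L] [Group E]
    (α : E →* (L ≃ₐ[K] L)) : Prop :=
  ∃ (F : Type) (_ : Field F) (_ : Algebra K F) (_ : Algebra L F) (_ : IsScalarTower K L F)
    (_ : FiniteDimensional K F) (_ : IsGalois K F) (ι : α.ker →* (F ≃ₐ[K] F))
    (M : Subgroup (F ≃ₐ[K] F)), Function.Injective ι ∧ M.Normal ∧ ι.range ≤ M ∧
    (∀ m ∈ M, Normalises m ι.range) ∧ TrivialOn L M ∧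
    (∀ σ, Normalises σ ι.range → ∃ g : E, ActsAs α ι σ g) ∧
    ∀ g : E, ∃ σ, Normalises σ ι.range ∧ ActsAs α ι σ g

/-- The embedding problem splits. -/
def Split {K L E : Type} [Field K] [Field L] [Algebra K L] [Group E]
    (α : E →* (L ≃ₐ[K] L)) : Prop :=
  ∃ s : (L ≃ₐ[K] L) →* E, ∀ τ, α (s τ) = τ

/-- There is a finite split cover `δ : H → E` such that a normal kernel of `α ∘ δ` gives a proper
solution of `α`. -/
def HasCover (K L E : Type) [Field K] [Field L] [Algebra K L] [Group E]
    (α : E →* (L ≃ₐ[K] L)) : Prop :=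
  ∃ (H : Type) (_ : Group H) (_ : Finite H) (δ : H →* E) (l : E →* H), (∀ g, δ (l g) = g) ∧
    (NormalKernel K L H (α.comp δ) → ProperSolution K L E α)

/-- There are a finite Galois extension `L₁ ⊇ L` of `K` and a finite embedding problem
`β : R → Gal(L₁/K)`, split if `α` is, such that a normal lift of `β` gives a proper solution of
`α`. -/
def HasCompanion (K L E : Type) [Field K] [Field L] [Algebra K L] [Group E]
    (α : E →* (L ≃ₐ[K] L)) : Prop :=
  ∃ (L₁ : Type) (_ : Field L₁) (_ : Algebra K L₁) (_ : Algebra L L₁) (_ : IsScalarTower K L L₁)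
    (_ : FiniteDimensional K L₁) (_ : IsGalois K L₁)
    (R : Type) (_ : Group R) (_ : Finite R) (β : R →* (L₁ ≃ₐ[K] L₁)),
    Function.Surjective β ∧ (Split α → Split β) ∧
    (NormalLift K L₁ R β → ProperSolution K L E α)

/-- All finite split embedding problems over `K` have proper solutions. -/
def AllProper (K : Type) [Field K] : Prop :=
  ∀ (L E : Type) [Field L] [Algebra K L] [FiniteDimensional K L] [IsGalois K L] [Group E]
    [Finite E] (α : E →* (L ≃ₐ[K] L)), Split α → ProperSolution K L E α

/-- All finite split embedding problems over `K` have normal kernels. -/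
def AllNormalKernel (K : Type) [Field K] : Prop :=
  ∀ (L E : Type) [Field L] [Algebra K L] [FiniteDimensional K L] [IsGalois K L] [Group E]
    [Finite E] (α : E →* (L ≃ₐ[K] L)), Split α → NormalKernel K L E α

/-- All finite split embedding problems over `K` have normal lifts. -/
def AllNormalLift (K : Type) [Field K] : Prop :=
  ∀ (L E : Type) [Field L] [Algebra K L] [FiniteDimensional K L] [IsGalois K L] [Group E]
    [Finite E] (α : E →* (L ≃ₐ[K] L)), Split α → NormalLift K L E α

end Pool.Agent.Results.MP_e9d732_al.NormalSubgroups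

open Pool.Agent.Results.MP_e9d732_al.NormalSubgroups Pool.Agent.H96S.NS
  Pool.Agent.H391R2 Pool.Agent.H391R2.T4

namespace Pool.Agent.Results.MP_e9d732_al.NormalSubgroups

theorem proper_of_solOver {K L E : Type} [Field K] [Field L] [Algebra K L] [Group E]
    {α : E →* (L ≃ₐ[K] L)} (h : SolOver K L E α K False) : ProperSolution K L E α := by
  obtain ⟨F, i1, i2, i3, i4, i5, i6, i7, i8, γ, hγ, -⟩ := h
  have h24 : i4 = i2 := Algebra.algebra_ext i4 i2 (fun x =>
    @IsScalarTower.algebraMap_apply K K F _ _ _ _ i2 i4 i5 x)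
  subst h24
  exact ⟨F, i1, i4, i3, i6, i7, i8, γ, hγ⟩

theorem cover {K L E : Type} [Field K] [Field L] [Algebra K L] [FiniteDimensional K L]
    [IsGalois K L] [Group E] {α : E →* (L ≃ₐ[K] L)}
    (h : NormalKernel K L (Cov E) (α.comp (SemidirectProduct.rightHom (φ := mulAutArrow)
      (N := E → Equiv.Perm (Fin 3)) (G := E)))) : ProperSolution K L E α := by
  obtain ⟨F, i1, i2, i3, i4, i5, i6, ι, hι, hN, hNL, he⟩ := h
  refine proper_of_solOver (sol_of_copy α False (fun x hx => hT_self x hx) ι.range hNL
    (MonoidHom.ofInjective hι) ?_ (fun h => h.elim))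
  · intro σ
    obtain ⟨g, h1, h2⟩ := he σ
    exact ⟨g, h1, fun c => h2 c _ (MulAut.conjNormal_apply _ _).symm⟩

theorem normalLift_of_proper {K L E : Type} [Field K] [Field L] [Algebra K L] [Group E]
    {α : E →* (L ≃ₐ[K] L)} (h : ProperSolution K L E α) : NormalLift K L E α := by
  obtain ⟨F, i1, i2, i3, i4, i5, i6, γ, hγ⟩ := h
  refine ⟨F, i1, i2, i3, i4, i5, i6, γ.symm.toMonoidHom, γ.symm.injective, ?_, ?_⟩
  · rw [MonoidHom.range_eq_top.2 γ.symm.surjective]
    infer_instance
  · intro g x
    change (γ.symm g) (algebraMap L F x) = _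
    rw [hγ, MulEquiv.apply_symm_apply]

theorem normalKernel_of_proper {K L E : Type} [Field K] [Field L] [Algebra K L] [Group E]
    {α : E →* (L ≃ₐ[K] L)} (h : ProperSolution K L E α) : NormalKernel K L E α := by
  obtain ⟨F, i1, i2, i3, i4, i5, i6, γ, hγ⟩ := h
  refine ⟨F, i1, i2, i3, i4, i5, i6, γ.symm.toMonoidHom.comp α.ker.subtype,
    γ.symm.injective.comp Subtype.val_injective, ?_, ?_, ?_⟩
  · rw [MonoidHom.range_comp, Subgroup.range_subtype]
    exact Subgroup.Normal.map inferInstance _ γ.symm.surjective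
  · rintro _ ⟨c, rfl⟩ x
    change (γ.symm c) (algebraMap L F x) = _
    rw [hγ, MulEquiv.apply_symm_apply, MonoidHom.mem_ker.1 c.2]
    rfl
  · intro σ
    refine ⟨γ σ, fun x => hγ σ x, fun c d h => ?_⟩
    apply γ.injective
    change γ (σ * γ.symm (c : E) * σ⁻¹) = γ (γ.symm (d : E))
    rw [map_mul, map_mul, map_inv, MulEquiv.apply_symm_apply, MulEquiv.apply_symm_apply, h]

theorem result :
    -- (1) over every field: a cover `δ : H → E` such that a normal kernel of `α ∘ δ` gives a proper
    -- solution of `α`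
    (∀ (K L E : Type) [Field K] [Field L] [Algebra K L] [FiniteDimensional K L]
      [IsGalois K L] [Group E] [Finite E] (α : E →* (L ≃ₐ[K] L)), HasCover K L E α) ∧
    -- (2) over a Hilbertian field: a companion problem, split if `α` is, such that a normal lift of
    -- it gives a proper solution of `α`
    (∀ (K : Type) [Field K], Hilbertian K →
      ∀ (L E : Type) [Field L] [Algebra K L] [FiniteDimensional K L]
      [IsGalois K L] [Group E] [Finite E] (α : E →* (L ≃ₐ[K] L)), Function.Surjective α →
      HasCompanion K L E α) ∧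
    -- (3) the question is equivalent to the one for normal kernels, over every field
    (∀ (K : Type) [Field K], AllProper K ↔ AllNormalKernel K) ∧
    -- (4) and to the one for normal lifts, over every Hilbertian field
    (∀ (K : Type) [Field K], Hilbertian K → (AllProper K ↔ AllNormalLift K)) ∧
    -- (5) subnormal kernels exist, for all weakly solvable problems over Hilbertian fields
    (∀ (K : Type) [Field K], Hilbertian K →
      ∀ (L E : Type) [Field L] [Algebra K L] [FiniteDimensional K L]
      [IsGalois K L] [Group E] [Finite E] (α : E →* (L ≃ₐ[K] L)),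
      Pool.Agent.H391R2.T4.WeakSol K L E α → SubnormalKernel K L E α) := by
  have c1 : ∀ (K L E : Type) [Field K] [Field L] [Algebra K L] [FiniteDimensional K L]
      [IsGalois K L] [Group E] [Finite E] (α : E →* (L ≃ₐ[K] L)), HasCover K L E α := by
    intro K L E _ _ _ _ _ _ _ α
    exact ⟨Cov E, inferInstance, inferInstance, SemidirectProduct.rightHom, SemidirectProduct.inr,
      fun g => SemidirectProduct.rightHom_inr g, cover⟩
  have c2 : ∀ (K : Type) [Field K], Hilbertian K →
      ∀ (L E : Type) [Field L] [Algebra K L] [FiniteDimensional K L]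
      [IsGalois K L] [Group E] [Finite E] (α : E →* (L ≃ₐ[K] L)), Function.Surjective α →
      HasCompanion K L E α := by
    intro K _ hK L E _ _ _ _ _ _ α hα
    obtain ⟨L₁, i1, i2, i3, i4, i5, i6, R, j1, j2, β, hβ, hs, hN⟩ := companion K hK L E α hα
    refine ⟨L₁, i1, i2, i3, i4, i5, i6, R, j1, j2, β, hβ, hs, ?_⟩
    rintro ⟨F, k1, k2, k3, k4, k5, k6, ι, hι, hNn, he⟩
    exact proper_of_solOver (hN K F False (fun h => h.elim) ι.range (MonoidHom.ofInjective hι) he)
  refine ⟨c1, c2, fun K _ => ⟨?_, ?_⟩, fun K _ hK => ⟨?_, ?_⟩, ?_⟩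
  · intro h L E _ _ _ _ _ _ α hs
    exact normalKernel_of_proper (h L E α hs)
  · intro h L E _ _ _ _ _ _ α hs
    obtain ⟨H, _, _, δ, l, hδ, hN⟩ := c1 K L E α
    obtain ⟨s, hs⟩ := hs
    apply hN
    apply h
    refine ⟨l.comp s, fun τ => ?_⟩
    rw [MonoidHom.comp_apply, MonoidHom.comp_apply, hδ, hs]
  · intro h L E _ _ _ _ _ _ α hs
    exact normalLift_of_proper (h L E α hs)
  · intro h L E _ _ _ _ _ _ α hs
    have hα : Function.Surjective α := by
      obtain ⟨s, hs⟩ := hs
      exact fun τ => ⟨s τ, hs τ⟩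
    obtain ⟨L₁, i1, i2, i3, i4, i5, i6, R, j1, j2, β, hβ, hsβ, hN⟩ := c2 K hK L E α hα
    exact hN (h L₁ R β (hsβ hs))
  · intro K _ hK L E _ _ _ _ _ _ α hw
    obtain ⟨F, i1, i2, i3, i4, i5, i6, i7, i8, γ, hγ, -⟩ :=
      (Pool.Agent.TH59.WX.hil_fin_unif K L E α hK hw _ le_rfl).1
    have h24 : i4 = i2 := Algebra.algebra_ext i4 i2 (fun x =>
      @IsScalarTower.algebraMap_apply K K F _ _ _ _ i2 i4 i5 x)
    subst h24
    obtain ⟨N, M, h1, h2, h3, h4, e, h5, h6⟩ := sub_of_sym α
      ⟨0, pow_pos (Nat.factorial_pos _) 3⟩ γ hγ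
    have hr : (N.subtype.comp e.toMonoidHom).range = N := by
      rw [MonoidHom.range_comp, MonoidHom.range_eq_top.2 e.surjective, ← MonoidHom.range_eq_map,
        Subgroup.range_subtype]
    have hact : ∀ σ g, Acts' α e σ g → ActsAs α (N.subtype.comp e.toMonoidHom) σ g := by
      rintro σ g ⟨k1, k2⟩
      refine ⟨k1, fun c d h => ?_⟩
      have h7 : d = MulAut.conjNormal g c := Subtype.ext (by
        rw [MulAut.conjNormal_apply]; exact h.symm)
      rw [h7]
      exact k2 c
    refine ⟨F, i1, i4, i3, i6, i7, i8, N.subtype.comp e.toMonoidHom, M,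
      Subtype.val_injective.comp e.injective, h1, ?_, ?_, h4, ?_, ?_⟩
    · rw [hr]; exact h2
    · rw [hr]; exact h3
    · rw [hr]
      intro σ hσ
      obtain ⟨g, hg⟩ := h5 σ hσ
      exact ⟨g, hact _ _ hg⟩
    · rw [hr]
      intro g
      obtain ⟨σ, hσ, hg⟩ := h6 g
      exact ⟨σ, hσ, hact _ _ hg⟩

end Pool.Agent.Results.MP_e9d732_al.NormalSubgroups
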