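import Mathlib
import Pool.Agent.TH59.WX.UH
import Pool.Agent.H96S.WP.SymPkg

/-!
# Proper solutions which are Galois closures of extensions without intermediate fields

`K` is any Hilbertian field (of any characteristic), `L/K` a finite Galois extension,
`α : E → Gal(L/K)` a weakly solvable finite embedding problem (for example a split one) and
`n ≥ ((3k + 2)!)^3`, `k = |ker α|`. The fibre power `SymEP α n` of the problem has a proper
solution `F / K` with the following property: for every maximal subgroup `M` of `E` which does not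
contain `ker α` and for which `M ∩ ker α` is not normal in `E`, the fixed field `N` of the elements
of `SymEP α n` with all coordinates in `M` has degree `[E : M] ^ n` over `K`, there is no field
properly between `K` and `N`, and `N ∩ L = K`; if moreover `M` has trivial core in `E`, then `F` is
the Galois closure of `N` over `K`.
-/

set_option autoImplicit false

namespace Pool.Agent.Results.MP_e9d732_al.PrimitiveClosures

open Pool.Agent.H391R2.T4 (SymEP symProj)

/-- `K` is Hilbertian (in the form used in frozen statement S03429). -/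
def Hilbertian (K : Type) [Field K] : Prop :=
  ∀ (f : Polynomial (Polynomial K)), f.Monic → Irreducible f →
    (f.map (algebraMap (Polynomial K) (FractionRing (Polynomial K)))).Separable →
    ∀ g : Polynomial K, g ≠ 0 →
      ∃ a : K, g.eval a ≠ 0 ∧ Irreducible (f.map (Polynomial.evalRingHom a))

/-- `γ : Gal(F/T) ≃ W` is a solution of the embedding problem `π : W → Gal(L/K)`: `σ` acts on `L` as
`π (γ σ)`. -/
def Solves {K L T F W : Type} [Field K] [Field L] [Algebra K L] [Field T] [Field F] [Algebra T F]
    [Algebra L F] [Group W] (π : W →* (L ≃ₐ[K] L)) (γ : (F ≃ₐ[T] F) ≃* W) : Prop :=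
  ∀ (σ : F ≃ₐ[T] F) (x : L), σ (algebraMap L F x) = algebraMap L F (π (γ σ) x)

/-- `N` consists of the elements of `F` fixed by all `σ` with `γ σ ∈ A`. -/
def FixedField {T F W : Type} [Field T] [Field F] [Algebra T F] [Group W]
    (γ : (F ≃ₐ[T] F) ≃* W) (A : Set W) (N : IntermediateField T F) : Prop :=
  ∀ x : F, x ∈ N ↔ ∀ σ : F ≃ₐ[T] F, γ σ ∈ A → σ x = x

/-- `N` has no subfields besides `T` and `N`, and is different from `T`. -/
def NoProperSubfields {T F : Type} [Field T] [Field F] [Algebra T F]
    (N : IntermediateField T F) : Prop :=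
  N ≠ ⊥ ∧ ∀ N' : IntermediateField T F, N' ≤ N → N' = ⊥ ∨ N' = N

/-- `F` is the Galois closure of `N` over `T`. -/
def IsClosure {T F : Type} [Field T] [Field F] [Algebra T F]
    (N : IntermediateField T F) : Prop :=
  ∀ N' : IntermediateField T F, N ≤ N' → Normal T N' → N' = ⊤

/-- The elements of `L` which lie in `N` are in `K`. -/
def MeetsInBase (L : Type) {K F : Type} [Field K] [Field L] [Field F] [Algebra K F]
    [Algebra L F] (N : IntermediateField K F) : Prop :=
  ∀ x : L, algebraMap L F x ∈ N → algebraMap L F x ∈ Set.range (algebraMap K F)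

/-- `A` is the set of the elements of the fibre power with all coordinates in a maximal subgroup
`M` of `E` which does not contain `ker α` and whose intersection with `ker α` is not normal in `E`;
`d = [E : M] ^ n`; and `c` says that `M` has trivial core. -/
def ProductType {E Γ : Type} [Group E] [Group Γ] (α : E →* Γ) (n : ℕ)
    (A : Set (SymEP α n)) (d : ℕ) (c : Prop) : Prop :=
  ∃ M : Subgroup E, IsCoatom M ∧ ¬ α.ker ≤ M ∧ ¬ (M ⊓ α.ker).Normal ∧
    (∀ z : SymEP α n, z ∈ A ↔ ∀ i, z.1.1.left i ∈ M) ∧ d = M.index ^ n ∧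
    (c ↔ M.normalCore = ⊥)

/-- `N` is the fixed field of `A`, of degree `d` over `K`, without proper subfields over `K`, with
`N ∩ L = K`, and `F` is the Galois closure of `N` if `c` holds. -/
def GoodField (L : Type) {K F W : Type} [Field K] [Field L] [Field F] [Algebra K F] [Algebra L F]
    [Group W] (γ : (F ≃ₐ[K] F) ≃* W) (A : Set W) (d : ℕ) (c : Prop)
    (N : IntermediateField K F) : Prop :=
  FixedField γ A N ∧ Module.finrank K N = d ∧ NoProperSubfields N ∧ MeetsInBase L N ∧
    (c → IsClosure N)

/-- A proper solution of the embedding problem `π`, with a good field for all `(A, d, c)` in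
`P`. -/
def HasSolution (K L W : Type) [Field K] [Field L] [Algebra K L]
    [Group W] (π : W →* (L ≃ₐ[K] L)) (P : Set W → ℕ → Prop → Prop) : Prop :=
  ∃ (F : Type) (_ : Field F) (_ : Algebra K F) (_ : Algebra L F) (_ : IsScalarTower K L F)
    (_ : FiniteDimensional K F) (_ : IsGalois K F) (γ : (F ≃ₐ[K] F) ≃* W),
    Solves π γ ∧ ∀ A d c, P A d c → ∃ N, GoodField L γ A d c N

end Pool.Agent.Results.MP_e9d732_al.PrimitiveClosures

open Pool.Agent.Results.MP_e9d732_al.PrimitiveClosures Pool.Agent.H96S.WP
  Pool.Agent.H391R2 Pool.Agent.H391R2.T4 in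
theorem Pool.Agent.Results.MP_e9d732_al.PrimitiveClosures.result :
    ∀ (K : Type) [Field K], Hilbertian K →
      ∀ (L E : Type) [Field L] [Algebra K L] [FiniteDimensional K L]
      [IsGalois K L] [Group E] [Finite E] (α : E →* (L ≃ₐ[K] L)), WeakSol K L E α →
      ∀ n : ℕ, ((3 * Nat.card α.ker + 2).factorial) ^ 3 ≤ n →
        HasSolution K L (SymEP α n) (symProj α n) (ProductType α n) := by
  intro K _ hK L E _ _ _ _ _ _ α hw n hn
  obtain ⟨F, i1, i2, i3, i4, i5, i6, i7, i8, γ, hγ, -⟩ :=
    (Pool.Agent.TH59.WX.hil_fin_unif K L E α hK hw n hn).1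
  have h24 : i4 = i2 := Algebra.algebra_ext i4 i2 (fun x =>
    @IsScalarTower.algebraMap_apply K K F _ _ _ _ i2 i4 i5 x)
  subst h24
  have hpos : 0 < n := lt_of_lt_of_le (by positivity) hn
  refine ⟨F, i1, i4, i3, i6, i7, i8, γ, hγ, ?_⟩
  rintro A d c ⟨M, hM, hker, hnn, hA, rfl, hc⟩
  obtain ⟨h1, h2, h3⟩ := symU_pkg γ.symm hM hker hnn hpos
  have hsup : M ⊔ α.ker = ⊤ := by
    apply hM.2
    rw [left_lt_sup]
    exact hker
  refine ⟨fld γ.symm (symU α n M), ?_, h1, h2, ?_, fun h => h3 (hc.1 h)⟩
  · intro x
    rw [mem_fld]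
    constructor
    · intro h σ hσ
      have := h (γ σ) ((hA _).1 hσ)
      rwa [MulEquiv.symm_apply_apply] at this
    · intro h w hw
      apply h
      rw [MulEquiv.apply_symm_apply]
      exact (hA w).2 hw
  · intro y hy
    exact fld_inter (symProj α n) γ hγ (symU α n M)
      (symU_onto (weak_surj K L E α hw) hsup) y hy
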