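import Mathlib
import Pool.Agent.TH59.WX.UH
import Pool.Agent.H96S.WP.SymPt

/-!
# Proper solutions over extensions of every large degree, with all intermediate fields known

`K` is any Hilbertian field (of any characteristic), `L/K` a finite Galois extension,
`α : E → Gal(L/K)` a weakly solvable finite embedding problem (for example a split one), and
`n ≥ ((3k + 2)!)^3`, `k = |ker α|`. There are finite extensions `F X` of `K` of degree
`n [E : X]`, for all subgroups `X` of `E`, ordered in reverse to the subgroups, such that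
`T = F E` (of degree `n` over `K`) meets `L` in `K`, `F 1` contains `L` and is a proper solution over
`T` of the embedding problem `α`, and all the fields between `K` and `F H` are known for all
`H ≤ E`: each of them is contained in `L` or is one of the `F X` with `H ≤ X ≤ E`.
-/

set_option autoImplicit false

namespace Pool.Agent.Results.MP_e9d732_al.SolutionIntervals

/-- `K` is Hilbertian (in the form used in frozen statement S03429). -/
def Hilbertian (K : Type) [Field K] : Prop :=
  ∀ (f : Polynomial (Polynomial K)), f.Monic → Irreducible f →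
    (f.map (algebraMap (Polynomial K) (FractionRing (Polynomial K)))).Separable →
    ∀ g : Polynomial K, g ≠ 0 →
      ∃ a : K, g.eval a ≠ 0 ∧ Irreducible (f.map (Polynomial.evalRingHom a))

/-- The fields `F X`, `X ≤ E`, have degree `n * [E : X]` over `K` and are ordered in reverse to the
subgroups; a field between `K` and `F H` is contained in `L` or is `F X` for some `X` with
`H ≤ X`. -/
def KnownSubfields (L : Type) {K Ω E : Type} [Field L] [Field K] [Field Ω] [Algebra K Ω]
    [Algebra L Ω] [Group E] (n : ℕ) (F : Subgroup E → IntermediateField K Ω) : Prop :=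
  (∀ X, Module.finrank K (F X) = n * X.index) ∧
  (∀ X X', F X ≤ F X' ↔ X' ≤ X) ∧
  ∀ (H : Subgroup E) (N : IntermediateField K Ω), N ≤ F H →
    (∀ y ∈ N, y ∈ Set.range (algebraMap L Ω)) ∨ ∃ X, H ≤ X ∧ N = F X

/-- The elements of `L` which lie in `N` are in `K`. -/
def MeetsInBase (L : Type) {K Ω : Type} [Field K] [Field L] [Field Ω] [Algebra K Ω]
    [Algebra L Ω] (N : IntermediateField K Ω) : Prop :=
  ∀ x : L, algebraMap L Ω x ∈ N → algebraMap L Ω x ∈ Set.range (algebraMap K Ω)

/-- `N` contains `T` and `L` and is a proper solution over `T` of the embedding problem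
`α : E → Gal(L/K)`: `N / T` is Galois, and there is an isomorphism `δ` of its group with `E` such
that every `τ` acts on `L` as `α (δ τ)`. -/
def ProperSolutionOver {K L Ω E : Type} [Field K] [Field L] [Field Ω] [Algebra K L] [Algebra K Ω]
    [Algebra L Ω] [Group E] (α : E →* (L ≃ₐ[K] L)) (T N : IntermediateField K Ω) : Prop :=
  (∀ x : L, algebraMap L Ω x ∈ N) ∧
  ∃ N' : IntermediateField T Ω, (∀ x : Ω, x ∈ N' ↔ x ∈ N) ∧ IsGalois T N' ∧
    ∃ δ : (N' ≃ₐ[T] N') ≃* E, ∀ (τ : N' ≃ₐ[T] N') (x : L) (hx : algebraMap L Ω x ∈ N'),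
      ((τ ⟨algebraMap L Ω x, hx⟩ : N') : Ω) = algebraMap L Ω (α (δ τ) x)

end Pool.Agent.Results.MP_e9d732_al.SolutionIntervals

open Pool.Agent.Results.MP_e9d732_al.SolutionIntervals Pool.Agent.H96S.WP
  Pool.Agent.H391R2 Pool.Agent.H391R2.T4 in
theorem Pool.Agent.Results.MP_e9d732_al.SolutionIntervals.result :
    ∀ (K : Type) [Field K], Hilbertian K →
      ∀ (L E : Type) [Field L] [Algebra K L] [FiniteDimensional K L]
      [IsGalois K L] [Group E] [Finite E] (α : E →* (L ≃ₐ[K] L)), WeakSol K L E α →
      ∀ n : ℕ, ((3 * Nat.card α.ker + 2).factorial) ^ 3 ≤ n →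
        ∃ (Ω : Type) (_ : Field Ω) (_ : Algebra K Ω) (_ : Algebra L Ω) (_ : IsScalarTower K L Ω)
          (_ : FiniteDimensional K Ω) (_ : IsGalois K Ω) (F : Subgroup E → IntermediateField K Ω),
          KnownSubfields L n F ∧ MeetsInBase L (F ⊤) ∧ ProperSolutionOver α (F ⊤) (F ⊥) := by
  intro K _ hK L E _ _ _ _ _ _ α hw n hn
  obtain ⟨F, i1, i2, i3, i4, i5, i6, i7, i8, γ, hγ, -⟩ :=
    (Pool.Agent.TH59.WX.hil_fin_unif K L E α hK hw n hn).1
  have h24 : i4 = i2 := Algebra.algebra_ext i4 i2 (fun x =>
    @IsScalarTower.algebraMap_apply K K F _ _ _ _ i2 i4 i5 x)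
  subst h24
  have h3 : 3 ≤ n := by
    refine le_trans ?_ hn
    have h4 : 3 * Nat.card α.ker + 2 ≤ (3 * Nat.card α.ker + 2).factorial :=
      Nat.self_le_factorial _
    have h5 : 0 < Nat.card α.ker := Nat.card_pos
    have h6 : (3 * Nat.card α.ker + 2).factorial ≤ ((3 * Nat.card α.ker + 2).factorial) ^ 3 :=
      Nat.le_self_pow (by norm_num) _
    omega
  let a : Fin n := ⟨0, by omega⟩
  obtain ⟨h1, h2, h4⟩ := symPt_pkg γ h3 a hγ
  refine ⟨F, i1, i4, i3, i6, i7, i8, fun X => fld γ.symm (symPt α a X), ⟨h1, h2, ?_⟩, ?_, ?_, ?_⟩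
  · intro H N hN
    rcases h4 H N hN with h | h
    · left
      intro y hy
      have hLF : IsGalois L F := IsGalois.tower_top_of_isGalois K L F
      have hLf : FiniteDimensional L F := FiniteDimensional.right K L F
      have h5 : y ∈ (⊥ : IntermediateField L F) := by
        rw [← IsGalois.fixedField_top, IntermediateField.mem_fixedField_iff]
        intro σ _
        exact h y hy (σ.restrictScalars K) fun x => σ.commutes x
      obtain ⟨z, hz⟩ := IntermediateField.mem_bot.1 h5
      exact ⟨z, hz⟩
    · right; exact h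
  · intro y hy
    exact fld_inter (symProj α n) γ hγ (symPt α a ⊤) (symPt_onto (weak_surj K L E α hw) a) y hy
  · intro x
    change algebraMap L F x ∈ fld γ.symm (symPt α a ⊥)
    rw [mem_fld]
    intro w hw'
    rw [hγ, MulEquiv.apply_symm_apply]
    have h5 : symProj α n w = 1 := by
      have h6 : α (w.1.1.left a) = w.1.2 := w.2 a
      have h7 : w.1.1.left a = 1 := Subgroup.mem_bot.1 hw'.2
      rw [h7, map_one] at h6
      exact h6.symm
    rw [h5]; rfl
  · exact symPt_gal γ a hγ
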